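import Pool.Agent.H88.CM.Targets

set_option autoImplicit false

open Pool.Agent.H88.CL Pool.Agent.H88.CM Set Function Topology Metric Filter

namespace Pool.Agent.H63.CLM

theorem bmp_mem {d : ℕ} {M : Type} [TopologicalSpace M] {φ : Ch d M} {u : E d → E d} {y : M}
    (h : y ∈ φ.source) : bmp φ u y = φ.symm (φ y + u (φ y)) := by
  unfold bmp
  rw [if_pos h]

theorem bmp_notMem {d : ℕ} {M : Type} [TopologicalSpace M] {φ : Ch d M} {u : E d → E d} {y : M}
    (h : y ∉ φ.source) : bmp φ u y = y := by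
  unfold bmp
  rw [if_neg h]

theorem pf_OBCM (h : Pool.Agent.H88.CL.T_OBP) : T_OBCM := by
  intro d
  obtain ⟨C, hC, hO⟩ := h d
  refine ⟨C, hC, ?_⟩
  intro M _ f κ x ρ0 y q m R hball hy hq hqx hm hqm hR hRρ hN
  obtain ⟨u, hu1, hu2, hu3, hu4, hu5, hu6⟩ := hO (ContinuousLinearMap.id ℝ (E d)) 1 R (κ q) 0
    (κ y - κ q) ContinuousLinearMap.norm_id_le hR
  have huq : u (κ q) = κ y - κ q := by
    refine hu5 _ ?_
    simp
    positivity
  refine ⟨u, ⟨hu1, ?_, ?_, ?_, ?_⟩, ?_⟩
  · intro v hv
    have h1 := hu6 v hv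
    rw [sub_zero, ContinuousLinearMap.id_apply] at h1
    rw [mem_closedBall, dist_eq_norm]
    have h2 : v - x = (v - κ q) + (κ q - x) := by abel
    have h3 := norm_add_le (v - κ q) (κ q - x)
    rw [h2]
    linarith
  · intro v
    rw [norm_sub_rev (κ q) (κ y)]
    exact hu2 v
  · intro v
    rw [norm_sub_rev (κ q) (κ y)]
    refine le_trans (hu3 v) (le_of_eq ?_)
    ring
  · intro v v'
    rw [norm_sub_rev (κ q) (κ y)]
    refine le_trans (hu4 v v') (le_of_eq ?_)
    field_simp
  · have h0 : ∀ l, 1 ≤ l → l < m → bmp κ u (f^[l] y) = f^[l] y := by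
      intro l hl hlm
      by_cases hs : f^[l] y ∈ κ.source
      · have h1 : u (κ (f^[l] y)) = 0 := by
          by_contra hne
          have h2 := hu6 _ hne
          rw [sub_zero, ContinuousLinearMap.id_apply] at h2
          have h3 := hN l hl hlm hs
          linarith
        rw [bmp_mem hs, h1, add_zero, κ.left_inv hs]
      · exact bmp_notMem hs
    obtain ⟨k, rfl⟩ : ∃ k, m = k + 1 := ⟨m - 1, by omega⟩
    have hG : (f ∘ bmp κ u) q = f y := by
      rw [comp_apply, bmp_mem hq, huq]
      have : κ q + (κ y - κ q) = κ y := by abel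
      rw [this, κ.left_inv hy]
    have hit : ∀ l, l ≤ k → (f ∘ bmp κ u)^[l] (f y) = f^[l + 1] y := by
      intro l
      induction l with
      | zero => intro _; rfl
      | succ l ih =>
        intro hl
        rw [iterate_succ_apply', ih (by omega), iterate_succ_apply' f (l + 1) y, comp_apply,
          h0 (l + 1) (by omega) (by omega)]
    rw [iterate_succ_apply, hG, hit k le_rfl]
    exact hqm

end Pool.Agent.H63.CLM
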